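import Pool.Agent.Helper21.W4.St5

set_option autoImplicit false

namespace Pool.Agent.Helper36.W4

open Finset
open Pool.Agent.Helper21.W4

theorem hWfin : StWfin := by
  intro hAr hVol hTs1 hTs2 hTar hTcl hTsg hWoo hWrho hWaf hWlin hWsg hTgt S hS hc hemb
  obtain ⟨r, hr, a, hinj, hgen⟩ := Pool.Agent.Helper67.WI.exists_enum hS hc
  have hr3 : r = 3 := by omega
  subst hr3
  have hTD := hTsg S a hS hc hinj hgen
  obtain ⟨B, h1, h2, h3, c1, c2, c3, hcls, hD⟩ := hTcl hTs1 hTs2 hTar _ _ _ _ _ hTD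
  have hpp := hcls.pp
  have hpp0 : PP0 B h1 h2 h3 := ⟨hpp.e12, hpp.e13, hpp.bd⟩
  have hmem : ∀ x : ℕ × ℕ × ℕ, x ∈ pts B h1 ↔ x.1 < h1 x.2.1 x.2.2 := by
    intro x
    unfold pts
    rw [mem_filter, mem_product, mem_product, mem_range, mem_range, mem_range]
    constructor
    · exact fun h => h.2
    · intro h
      have := hpp.bd _ _ _ h
      exact ⟨⟨by omega, by omega, by omega⟩, h⟩
  have h000 : (0, 0, 0) ∈ pts B h1 := by
    rw [hmem]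
    have := hpp.n1
    show 0 < h1 0 0
    omega
  obtain ⟨κ, hκ⟩ : ∃ κ, IsK h1 κ := by
    obtain ⟨y, hy, hmax⟩ := exists_max_image (pts B h1) (fun x => x.1 + x.2.1 + x.2.2 + 3) ⟨_, h000⟩
    refine ⟨y.1 + y.2.1 + y.2.2 + 3, ?_, y.1, y.2.1, y.2.2, (hmem y).1 hy, rfl⟩
    intro p q r hpqr
    exact hmax (p, q, r) ((hmem (p, q, r)).2 hpqr)
  obtain ⟨hv, hsum, hinjΛ, hnm⟩ := hWsg hVol S a hS hc hgen B h1 h2 h3 hpp hD
  have hm := Pool.Agent.Helper67.WI.mult_pos hS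
  have hT := hTgt B h1 h2 h3 c1 c2 c3 κ hcls hκ
  have hA := hWaf hAr hVol hWoo hWrho B h1 h2 h3 κ (fun x : ℕ × ℕ × ℕ =>
    (Pool.Agent.Helper67.WI.cond S + Pool.Agent.Helper67.WI.mult S - 1 -
      Pool.Agent.Helper67.WI.wN a ![x.1, x.2.1, x.2.2])) hpp hκ (by rw [hv]; exact hm)
    (by rw [hv]; exact hinjΛ) (by rw [hv]; exact hnm) hT
  have hsd := Pool.Agent.Helper67.WI.sum_def hS hc hgen
  rw [← hsum] at hsd
  -- linear weight
  have hL := hWlin B h1 h2 h3 ((Pool.Agent.Helper67.WI.cond S + Pool.Agent.Helper67.WI.mult S - 1 : ℕ) : ℤ)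
    (a 0) (a 1) (a 2) hpp0
  have hL1 := hWlin B h1 h2 h3 1 0 0 0 hpp0
  have hoo := (hWoo hAr hVol B h1 h2 h3 hpp0).1
  have hcard : ((pts B h1).card : ℤ) = Pool.Agent.Helper67.WI.mult S := by
    have e1 : ∑ x ∈ pts B h1, (1 - 0 * (x.1 : ℤ) - 0 * x.2.1 - 0 * x.2.2) * (oo h1 h2 h3 x : ℤ) =
        3 * vol B h3 := by
      have : ∑ x ∈ pts B h1, (1 - 0 * (x.1 : ℤ) - 0 * x.2.1 - 0 * x.2.2) * (oo h1 h2 h3 x : ℤ) =
          ((∑ x ∈ pts B h1, oo h1 h2 h3 x : ℕ) : ℤ) := by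
        push_cast
        refine sum_congr rfl fun x _ => by ring
      rw [this, hoo]
      push_cast
      ring
    have e2 : ∑ x ∈ pts B h1, (4 * (1 - 0 * (x.1 : ℤ) - 0 * x.2.1 - 0 * x.2.2) - 1) =
        3 * (pts B h1).card := by
      rw [sum_congr rfl (fun x _ => show (4 * (1 - 0 * (x.1 : ℤ) - 0 * x.2.1 - 0 * x.2.2) - 1) = 3 by ring),
        sum_const, nsmul_eq_mul]
      ring
    rw [e1, e2, hv] at hL1
    linarith
  have hΛ : ∀ x ∈ pts B h1, (((Pool.Agent.Helper67.WI.cond S + Pool.Agent.Helper67.WI.mult S - 1 -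
      Pool.Agent.Helper67.WI.wN a ![x.1, x.2.1, x.2.2] : ℕ)) : ℤ) =
      ((Pool.Agent.Helper67.WI.cond S + Pool.Agent.Helper67.WI.mult S - 1 : ℕ) : ℤ) - (a 0 : ℤ) * x.1 -
        (a 1 : ℤ) * x.2.1 - (a 2 : ℤ) * x.2.2 := by
    intro x hx
    have hNF := (hD x.1 x.2.1 x.2.2).1 ((hmem x).1 hx)
    have hle := Pool.Agent.Helper67.WI.Ap_le hS hc hNF.1
    have hw : Pool.Agent.Helper67.WI.wN a ![x.1, x.2.1, x.2.2] = a 0 * x.1 + a 1 * x.2.1 + a 2 * x.2.2 := by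
      unfold Pool.Agent.Helper67.WI.wN
      rw [Fin.sum_univ_three]
      rfl
    rw [Nat.cast_sub hle, hw]
    push_cast
    ring
  have hLl : ∑ x ∈ pts B h1, (((Pool.Agent.Helper67.WI.cond S + Pool.Agent.Helper67.WI.mult S - 1 : ℕ) : ℤ) -
      (a 0 : ℤ) * x.1 - (a 1 : ℤ) * x.2.1 - (a 2 : ℤ) * x.2.2) * (oo h1 h2 h3 x : ℤ) =
      ((∑ x ∈ pts B h1, (Pool.Agent.Helper67.WI.cond S + Pool.Agent.Helper67.WI.mult S - 1 -
      Pool.Agent.Helper67.WI.wN a ![x.1, x.2.1, x.2.2]) * oo h1 h2 h3 x : ℕ) : ℤ) := by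
    rw [Nat.cast_sum]
    refine sum_congr rfl fun x hx => ?_
    rw [Nat.cast_mul, hΛ x hx]
  have hLr : ∑ x ∈ pts B h1, (4 * (((Pool.Agent.Helper67.WI.cond S + Pool.Agent.Helper67.WI.mult S - 1 : ℕ) : ℤ) -
      (a 0 : ℤ) * x.1 - (a 1 : ℤ) * x.2.1 - (a 2 : ℤ) * x.2.2) -
        ((Pool.Agent.Helper67.WI.cond S + Pool.Agent.Helper67.WI.mult S - 1 : ℕ) : ℤ)) =
      4 * ((∑ x ∈ pts B h1, (Pool.Agent.Helper67.WI.cond S + Pool.Agent.Helper67.WI.mult S - 1 -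
      Pool.Agent.Helper67.WI.wN a ![x.1, x.2.1, x.2.2]) : ℕ) : ℤ) -
        (pts B h1).card * ((Pool.Agent.Helper67.WI.cond S + Pool.Agent.Helper67.WI.mult S - 1 : ℕ) : ℤ) := by
    rw [sum_sub_distrib, ← mul_sum, sum_const, nsmul_eq_mul, Nat.cast_sum]
    congr 2
    exact sum_congr rfl fun x hx => (hΛ x hx).symm
  rw [hLl, hLr, hcard] at hL
  rw [hv] at hA
  have hA' : ((Pool.Agent.Helper67.WI.mult S : ℤ) * ((Pool.Agent.Helper67.WI.mult S : ℤ) - 1)) ≤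
      ((∑ x ∈ pts B h1, (Pool.Agent.Helper67.WI.cond S + Pool.Agent.Helper67.WI.mult S - 1 -
      Pool.Agent.Helper67.WI.wN a ![x.1, x.2.1, x.2.2]) * oo h1 h2 h3 x : ℕ) : ℤ) := by
    have h := (Nat.cast_le (α := ℤ)).2 hA
    rw [Nat.cast_mul, Nat.cast_sub hm] at h
    exact h
  have hsd' : 2 * ((∑ x ∈ pts B h1, (Pool.Agent.Helper67.WI.cond S + Pool.Agent.Helper67.WI.mult S - 1 -
      Pool.Agent.Helper67.WI.wN a ![x.1, x.2.1, x.2.2]) : ℕ) : ℤ) =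
      2 * ((Pool.Agent.Helper67.WI.mult S : ℤ) * Pool.Agent.Helper67.WI.left S) +
        (Pool.Agent.Helper67.WI.mult S : ℤ) * ((Pool.Agent.Helper67.WI.mult S : ℤ) - 1) := by
    have h := congrArg (Nat.cast (R := ℤ)) hsd
    rw [Nat.cast_mul, Nat.cast_add, Nat.cast_mul, Nat.cast_mul, Nat.cast_mul, Nat.cast_sub hm] at h
    exact h
  have hC : ((Pool.Agent.Helper67.WI.cond S + Pool.Agent.Helper67.WI.mult S - 1 : ℕ) : ℤ) =
      (Pool.Agent.Helper67.WI.cond S : ℤ) + Pool.Agent.Helper67.WI.mult S - 1 := by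
    rw [Nat.cast_sub (by omega)]
    push_cast
    ring
  rw [hC] at hL
  have hmz : (0 : ℤ) < Pool.Agent.Helper67.WI.mult S := by exact_mod_cast hm
  have hfin : (Pool.Agent.Helper67.WI.mult S : ℤ) * (Pool.Agent.Helper67.WI.cond S : ℤ) ≤
      (Pool.Agent.Helper67.WI.mult S : ℤ) * (4 * (Pool.Agent.Helper67.WI.left S : ℤ)) := by
    rw [hL] at hA'
    linarith
  have := le_of_mul_le_mul_left hfin hmz
  exact_mod_cast this

end Pool.Agent.Helper36.W4
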