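import Pool.Agent.Helper21.W4.St5

/-!
# Wilf in embedding dimension four: module Wlin
-/

set_option autoImplicit false

namespace Pool.Agent.Helper36.W4

open Pool.Agent.Helper21.W4 Finset

theorem col_aux (n : ℕ) (D b : ℤ) :
    ∑ p ∈ range n, (D - b * p) * ((if n = p + 1 then p + 1 else 0 : ℕ) : ℤ) =
      ∑ p ∈ range n, ((D - b * p) - b * p) := by
  rcases n with _ | n
  · simp
  · have h1 : ∑ p ∈ range (n + 1), (D - b * p) * ((if n + 1 = p + 1 then p + 1 else 0 : ℕ) : ℤ) =
        (D - b * n) * ((n : ℤ) + 1) := by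
      rw [Finset.sum_eq_single n]
      · simp
      · intro p _ hp
        have : ¬ (n + 1 = p + 1) := by omega
        rw [if_neg this, Nat.cast_zero, mul_zero]
      · intro h
        exact absurd (Finset.mem_range.2 (Nat.lt_succ_self n)) h
    have h2 : ∀ m : ℕ, ∑ p ∈ range (m + 1), ((D - b * p) - b * p) = (D - b * m) * ((m : ℤ) + 1) := by
      intro m
      induction m with
      | zero => simp
      | succ m ih =>
        rw [Finset.sum_range_succ, ih]
        push_cast
        ring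
    rw [h1, h2 n]

theorem col (B n : ℕ) (hn : n ≤ B) (D b : ℤ) :
    ∑ p ∈ range B, (if p < n then (D - b * p) * ((if n = p + 1 then p + 1 else 0 : ℕ) : ℤ) else 0) =
      ∑ p ∈ range B, (if p < n then (D - b * p) - b * p else 0) := by
  have key : ∀ f : ℕ → ℤ, ∑ p ∈ range B, (if p < n then f p else 0) = ∑ p ∈ range n, f p := by
    intro f
    rw [← Finset.sum_filter]
    apply Finset.sum_congr _ (fun _ _ => rfl)
    ext p
    rw [Finset.mem_filter, Finset.mem_range, Finset.mem_range]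
    omega
  rw [key, key, col_aux]

theorem pts_sum (B : ℕ) (h1 : ℕ → ℕ → ℕ) (F : ℕ × ℕ × ℕ → ℤ) :
    ∑ x ∈ pts B h1, F x = ∑ p ∈ range B, ∑ q ∈ range B, ∑ r ∈ range B,
      (if p < h1 q r then F (p, q, r) else 0) := by
  unfold pts
  rw [Finset.sum_filter, Finset.sum_product]
  apply Finset.sum_congr rfl
  intro p _
  rw [Finset.sum_product]

theorem hWlin : StWlin := by
  classical
  intro B h1 h2 h3 C b1 b2 b3 hP
  have n1 : ∀ q r, h1 q r ≤ B := by
    intro q r
    rcases Nat.eq_zero_or_pos (h1 q r) with h | h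
    · omega
    · have := (hP.bd (h1 q r - 1) q r (by omega)).1
      omega
  have n2 : ∀ p r, h2 p r ≤ B := by
    intro p r
    rcases Nat.eq_zero_or_pos (h2 p r) with h | h
    · omega
    · have := (hP.bd p (h2 p r - 1) r ((hP.e12 _ _ _).2 (by omega))).2.1
      omega
  have n3 : ∀ p q, h3 p q ≤ B := by
    intro p q
    rcases Nat.eq_zero_or_pos (h3 p q) with h | h
    · omega
    · have := (hP.bd p q (h3 p q - 1) ((hP.e13 _ _ _).2 (by omega))).2.2
      omega
  set L : ℕ × ℕ × ℕ → ℤ := fun x => C - b1 * x.1 - b2 * x.2.1 - b3 * x.2.2 with hL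
  -- the three directions
  have d1 : ∑ x ∈ pts B h1, L x * ((if h1 x.2.1 x.2.2 = x.1 + 1 then x.1 + 1 else 0 : ℕ) : ℤ) =
      ∑ x ∈ pts B h1, (L x - b1 * x.1) := by
    rw [pts_sum, pts_sum]
    rw [Finset.sum_comm]
    conv_rhs => rw [Finset.sum_comm]
    apply Finset.sum_congr rfl
    intro q _
    rw [Finset.sum_comm]
    conv_rhs => rw [Finset.sum_comm]
    apply Finset.sum_congr rfl
    intro r _
    have := col B (h1 q r) (n1 q r) (C - b2 * q - b3 * r) b1
    have e : ∀ p : ℕ, L (p, q, r) = (C - b2 * q - b3 * r) - b1 * p := by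
      intro p; simp only [hL]; ring
    simp only [e]
    exact this
  have d2 : ∑ x ∈ pts B h1, L x * ((if h2 x.1 x.2.2 = x.2.1 + 1 then x.2.1 + 1 else 0 : ℕ) : ℤ) =
      ∑ x ∈ pts B h1, (L x - b2 * x.2.1) := by
    rw [pts_sum, pts_sum]
    apply Finset.sum_congr rfl
    intro p _
    rw [Finset.sum_comm]
    conv_rhs => rw [Finset.sum_comm]
    apply Finset.sum_congr rfl
    intro r _
    have := col B (h2 p r) (n2 p r) (C - b1 * p - b3 * r) b2
    have e : ∀ q : ℕ, L (p, q, r) = (C - b1 * p - b3 * r) - b2 * q := by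
      intro q; simp only [hL]; ring
    simp only [e, hP.e12 p _ r]
    exact this
  have d3 : ∑ x ∈ pts B h1, L x * ((if h3 x.1 x.2.1 = x.2.2 + 1 then x.2.2 + 1 else 0 : ℕ) : ℤ) =
      ∑ x ∈ pts B h1, (L x - b3 * x.2.2) := by
    rw [pts_sum, pts_sum]
    apply Finset.sum_congr rfl
    intro p _
    apply Finset.sum_congr rfl
    intro q _
    have := col B (h3 p q) (n3 p q) (C - b1 * p - b2 * q) b3
    have e : ∀ r : ℕ, L (p, q, r) = (C - b1 * p - b2 * q) - b3 * r := by
      intro r; simp only [hL]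
    simp only [e, hP.e13 p q _]
    exact this
  have e1 : ∑ x ∈ pts B h1, (C - b1 * x.1 - b2 * x.2.1 - b3 * x.2.2) * (oo h1 h2 h3 x : ℤ) =
      ∑ x ∈ pts B h1, L x * ((if h1 x.2.1 x.2.2 = x.1 + 1 then x.1 + 1 else 0 : ℕ) : ℤ) +
      ∑ x ∈ pts B h1, L x * ((if h2 x.1 x.2.2 = x.2.1 + 1 then x.2.1 + 1 else 0 : ℕ) : ℤ) +
      ∑ x ∈ pts B h1, L x * ((if h3 x.1 x.2.1 = x.2.2 + 1 then x.2.2 + 1 else 0 : ℕ) : ℤ) := by
    rw [← Finset.sum_add_distrib, ← Finset.sum_add_distrib]
    apply Finset.sum_congr rfl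
    intro x _
    unfold oo
    rw [Nat.cast_add, Nat.cast_add, mul_add, mul_add]
  rw [e1, d1, d2, d3, ← Finset.sum_add_distrib, ← Finset.sum_add_distrib]
  apply Finset.sum_congr rfl
  intro x _
  simp only [hL]
  ring

end Pool.Agent.Helper36.W4
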