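import Pool.Agent.Helper21.W4.St5

/-!
# Wilf in embedding dimension four: module Wrho
-/

set_option autoImplicit false

namespace Pool.Agent.Helper36.W4

open Pool.Agent.Helper21.W4 Finset

theorem sum_tri (n : ℕ) : 2 * ∑ j ∈ range n, (n - j) = n * (n + 1) := by
  induction n with
  | zero => simp
  | succ n ih =>
    have h1 : ∑ j ∈ range (n + 1), (n + 1 - j) = ∑ j ∈ range n, (n - j) + (n + 1) := by
      rw [Finset.sum_range_succ' (fun j => n + 1 - j) n]
      congr 1
      apply Finset.sum_congr rfl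
      intro j _
      omega
    rw [h1, Nat.mul_add, ih]
    ring

theorem hWrho : StWrho := by
  classical
  intro α _ X o ρ κ hρ hκ
  rcases Nat.eq_zero_or_pos κ with h0 | h0
  · have : ∀ x ∈ X, o x = 0 := by
      intro x hx
      have := hκ x hx
      omega
    rw [Finset.sum_eq_zero this]
    simp
  set s := ∑ x ∈ X, o x with hs
  set T := ∑ x ∈ X, o x * ρ x with hT
  set n := s / κ with hn
  have hsum : s * n ≤ T + κ * ∑ x ∈ X, (n - ρ x) := by
    rw [hs, hT, Finset.sum_mul, Finset.mul_sum, ← Finset.sum_add_distrib]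
    apply Finset.sum_le_sum
    intro x hx
    have h1 := hκ x hx
    rcases le_total n (ρ x) with h | h
    · rw [Nat.sub_eq_zero_of_le h, Nat.mul_zero, Nat.add_zero]
      exact Nat.mul_le_mul_left _ h
    · obtain ⟨d, hd⟩ := Nat.exists_eq_add_of_le h
      rw [hd, Nat.add_sub_cancel_left, Nat.mul_add]
      exact Nat.add_le_add_left (Nat.mul_le_mul_right _ h1) _
  have hQ : ∑ x ∈ X, (n - ρ x) ≤ ∑ j ∈ range n, (n - j) := by
    have e1 : ∑ x ∈ X, (n - ρ x) = ∑ x ∈ X.filter (fun x => ρ x < n), (n - ρ x) := by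
      rw [Finset.sum_filter]
      apply Finset.sum_congr rfl
      intro x _
      split_ifs with h
      · rfl
      · omega
    have hinj : Set.InjOn ρ ((X.filter (fun x => ρ x < n) : Finset α) : Set α) := by
      intro x hx y hy hxy
      exact hρ (Finset.mem_coe.2 (Finset.mem_filter.1 (Finset.mem_coe.1 hx)).1)
        (Finset.mem_coe.2 (Finset.mem_filter.1 (Finset.mem_coe.1 hy)).1) hxy
    have e2 : ∑ x ∈ X.filter (fun x => ρ x < n), (n - ρ x) =
        ∑ j ∈ (X.filter (fun x => ρ x < n)).image ρ, (n - j) :=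
      (Finset.sum_image (f := fun j => n - j) hinj).symm
    rw [e1, e2]
    apply Finset.sum_le_sum_of_subset
    intro j hj
    obtain ⟨x, hx, rfl⟩ := Finset.mem_image.1 hj
    exact Finset.mem_range.2 (Finset.mem_filter.1 hx).2
  have h2 := sum_tri n
  have h3 : s * n ≤ T + κ * ∑ j ∈ range n, (n - j) :=
    hsum.trans (Nat.add_le_add_left (Nat.mul_le_mul_left _ hQ) _)
  set Q := ∑ j ∈ range n, (n - j) with hQd
  have h4 := Nat.div_add_mod s κ
  have h5 := Nat.mod_lt s h0
  set r := s % κ with hr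
  rw [← hn] at h4
  clear_value s T n Q r
  subst h4
  have h6 : r * r ≤ κ * r := Nat.mul_le_mul_right _ h5.le
  have h7 : κ * (2 * ((κ * n + r) * n)) ≤ κ * (2 * T + κ * (n * (n + 1))) := by
    apply Nat.mul_le_mul_left
    rw [← h2]
    nlinarith
  nlinarith

end Pool.Agent.Helper36.W4
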